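import Pool.Agent.Helper21.PD.Defs
import Pool.Agent.Helper21.ID.Asym
import Pool.Graph.R_seed8.H988R3.Defs4

/-!
# Asymptotics of the ratio
-/

namespace Pool.Agent.Helper21.PD

open Filter Topology
open Pool.Agent.Helper21.ID

theorem ratio_succ (n : ℕ) : ratio (n + 1) = ratio n *
    ((2 * (n : ℝ) + 1) ^ 2 * (3 * n + 4) * (3 * n + 5) /
      ((6 * n + 5) * (6 * n + 7) * (n + 1) * (n + 2))) := by
  unfold ratio
  rw [Finset.prod_range_succ]

theorem ratio_pos (n : ℕ) : 0 < ratio n := by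
  unfold ratio
  exact Finset.prod_pos fun i _ => by positivity

/-- `n! n^s / (s (s+1) ⋯ (s+n))` -/
theorem gs_prod (s : ℝ) (hs : 0 < s) (n : ℕ) (hn : 1 ≤ n) :
    ∏ j ∈ Finset.range (n + 1), ((j : ℝ) + s) = (n : ℝ) ^ s * n.factorial / Real.GammaSeq s n := by
  have h0 : (0 : ℝ) < ∏ j ∈ Finset.range (n + 1), (s + (j : ℝ)) :=
    Finset.prod_pos fun j _ => by positivity
  have h1 : (0 : ℝ) < (n : ℝ) ^ s := Real.rpow_pos_of_pos (by exact_mod_cast hn) _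
  have h2 : (0 : ℝ) < (n.factorial : ℝ) := by exact_mod_cast n.factorial_pos
  unfold Real.GammaSeq
  have h3 : ∏ j ∈ Finset.range (n + 1), ((j : ℝ) + s) = ∏ j ∈ Finset.range (n + 1), (s + (j : ℝ)) :=
    Finset.prod_congr rfl fun j _ => add_comm _ _
  rw [h3]
  field_simp

theorem gs_pos (s : ℝ) (hs : 0 < s) (n : ℕ) (hn : 1 ≤ n) : 0 < Real.GammaSeq s n := by
  unfold Real.GammaSeq
  have h0 : (0 : ℝ) < ∏ j ∈ Finset.range (n + 1), (s + (j : ℝ)) :=
    Finset.prod_pos fun j _ => by positivity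
  have h1 : (0 : ℝ) < (n : ℝ) ^ s := Real.rpow_pos_of_pos (by exact_mod_cast hn) _
  positivity

theorem ratio_gamma (n : ℕ) (hn : 1 ≤ n) : (n : ℝ) * ratio (n + 1) =
    (Real.GammaSeq (5/6) n * Real.GammaSeq (7/6) n * Real.GammaSeq 1 n * Real.GammaSeq 2 n) /
      (Real.GammaSeq (1/2) n ^ 2 * Real.GammaSeq (4/3) n * Real.GammaSeq (5/3) n) := by
  have hn0 : (0 : ℝ) < n := by exact_mod_cast hn
  have h1 : ratio (n + 1) = (∏ j ∈ Finset.range (n + 1), ((j : ℝ) + 1/2)) ^ 2 *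
      (∏ j ∈ Finset.range (n + 1), ((j : ℝ) + 4/3)) * (∏ j ∈ Finset.range (n + 1), ((j : ℝ) + 5/3)) /
      ((∏ j ∈ Finset.range (n + 1), ((j : ℝ) + 5/6)) * (∏ j ∈ Finset.range (n + 1), ((j : ℝ) + 7/6)) *
      (∏ j ∈ Finset.range (n + 1), ((j : ℝ) + 1)) * (∏ j ∈ Finset.range (n + 1), ((j : ℝ) + 2))) := by
    unfold ratio
    rw [← Finset.prod_pow, ← Finset.prod_mul_distrib, ← Finset.prod_mul_distrib,
      ← Finset.prod_mul_distrib, ← Finset.prod_mul_distrib, ← Finset.prod_mul_distrib,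
      ← Finset.prod_div_distrib]
    refine Finset.prod_congr rfl fun i _ => ?_
    have : (0 : ℝ) ≤ i := by positivity
    field_simp
    ring
  rw [h1, gs_prod (1/2) (by norm_num) n hn, gs_prod (4/3) (by norm_num) n hn,
    gs_prod (5/3) (by norm_num) n hn, gs_prod (5/6) (by norm_num) n hn,
    gs_prod (7/6) (by norm_num) n hn, gs_prod 1 (by norm_num) n hn, gs_prod 2 (by norm_num) n hn]
  have g1 := gs_pos (1/2) (by norm_num) n hn
  have g2 := gs_pos (4/3) (by norm_num) n hn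
  have g3 := gs_pos (5/3) (by norm_num) n hn
  have g4 := gs_pos (5/6) (by norm_num) n hn
  have g5 := gs_pos (7/6) (by norm_num) n hn
  have g6 := gs_pos 1 (by norm_num) n hn
  have g7 := gs_pos 2 (by norm_num) n hn
  have hf : (0 : ℝ) < (n.factorial : ℝ) := by exact_mod_cast n.factorial_pos
  have e1 : ((n : ℝ) ^ (1/2 : ℝ)) ^ 2 * (n : ℝ) ^ (4/3 : ℝ) * (n : ℝ) ^ (5/3 : ℝ) * n =
      (n : ℝ) ^ (5/6 : ℝ) * (n : ℝ) ^ (7/6 : ℝ) * (n : ℝ) ^ (1 : ℝ) * (n : ℝ) ^ (2 : ℝ) := by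
    rw [← Real.rpow_natCast ((n : ℝ) ^ (1/2 : ℝ)) 2, ← Real.rpow_mul hn0.le,
      ← Real.rpow_add hn0, ← Real.rpow_add hn0, ← Real.rpow_add hn0, ← Real.rpow_add hn0,
      ← Real.rpow_add hn0]
    nth_rewrite 2 [← Real.rpow_one (n : ℝ)]
    rw [← Real.rpow_add hn0]
    norm_num
  have p1 : (0 : ℝ) < (n : ℝ) ^ (5/6 : ℝ) := Real.rpow_pos_of_pos hn0 _
  have p2 : (0 : ℝ) < (n : ℝ) ^ (7/6 : ℝ) := Real.rpow_pos_of_pos hn0 _
  have p3 : (0 : ℝ) < (n : ℝ) ^ (1 : ℝ) := Real.rpow_pos_of_pos hn0 _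
  have p4 : (0 : ℝ) < (n : ℝ) ^ (2 : ℝ) := Real.rpow_pos_of_pos hn0 _
  rw [eq_div_iff (by positivity)]
  generalize Real.GammaSeq (1/2) n = a1 at *
  generalize Real.GammaSeq (4/3) n = a2 at *
  generalize Real.GammaSeq (5/3) n = a3 at *
  generalize Real.GammaSeq (5/6) n = a4 at *
  generalize Real.GammaSeq (7/6) n = a5 at *
  generalize Real.GammaSeq 1 n = a6 at *
  generalize Real.GammaSeq 2 n = a7 at *
  generalize (n : ℝ) ^ (1/2 : ℝ) = b1 at *
  generalize (n : ℝ) ^ (4/3 : ℝ) = b2 at *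
  generalize (n : ℝ) ^ (5/3 : ℝ) = b3 at *
  generalize (n : ℝ) ^ (5/6 : ℝ) = b4 at *
  generalize (n : ℝ) ^ (7/6 : ℝ) = b5 at *
  generalize (n : ℝ) ^ (1 : ℝ) = b6 at *
  generalize (n : ℝ) ^ (2 : ℝ) = b7 at *
  generalize (n.factorial : ℝ) = f at *
  have hmain : (n : ℝ) * ((b1 * f / a1) ^ 2 * (b2 * f / a2) * (b3 * f / a3) /
      ((b4 * f / a4) * (b5 * f / a5) * (b6 * f / a6) * (b7 * f / a7))) * (a1 ^ 2 * a2 * a3) =
      (b1 ^ 2 * b2 * b3 * n) / (b4 * b5 * b6 * b7) * (a4 * a5 * a6 * a7) := by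
    field_simp
  rw [hmain, e1, div_self (by positivity), one_mul]

/-- the limit of `(2n+1) ratio n` -/
noncomputable def cc : ℝ := 3 * Real.sqrt 3 / (2 * Real.pi)

theorem gamma_value : (Real.Gamma (5/6) * Real.Gamma (7/6) * Real.Gamma 1 * Real.Gamma 2) /
      (Real.Gamma (1/2) ^ 2 * Real.Gamma (4/3) * Real.Gamma (5/3)) =
      3 * Real.sqrt 3 / (4 * Real.pi) := by
  have h1 : Real.Gamma (7/6) = 1/6 * Real.Gamma (1/6) := by
    rw [show (7/6 : ℝ) = 1/6 + 1 by norm_num, Real.Gamma_add_one (by norm_num)]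
  have h2 : Real.Gamma (4/3) = 1/3 * Real.Gamma (1/3) := by
    rw [show (4/3 : ℝ) = 1/3 + 1 by norm_num, Real.Gamma_add_one (by norm_num)]
  have h3 : Real.Gamma (5/3) = 2/3 * Real.Gamma (2/3) := by
    rw [show (5/3 : ℝ) = 2/3 + 1 by norm_num, Real.Gamma_add_one (by norm_num)]
  have h4 : Real.Gamma (1/6) * Real.Gamma (5/6) = 2 * Real.pi := by
    have := Real.Gamma_mul_Gamma_one_sub (1/6)
    rw [show (1 : ℝ) - 1/6 = 5/6 by norm_num,
      show Real.pi * (1/6) = Real.pi / 6 by ring, Real.sin_pi_div_six] at this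
    rw [this]; ring
  have h5 : Real.Gamma (1/3) * Real.Gamma (2/3) = 2 * Real.pi / Real.sqrt 3 := by
    have := Real.Gamma_mul_Gamma_one_sub (1/3)
    rw [show (1 : ℝ) - 1/3 = 2/3 by norm_num,
      show Real.pi * (1/3) = Real.pi / 3 by ring, Real.sin_pi_div_three] at this
    rw [this]; field_simp
  have h6 : Real.Gamma (1/2) ^ 2 = Real.pi := by
    rw [Real.Gamma_one_half_eq, Real.sq_sqrt Real.pi_pos.le]
  have h7 : Real.Gamma 2 = 1 := Real.Gamma_two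
  have hpi := Real.pi_pos
  have hs : (0 : ℝ) < Real.sqrt 3 := Real.sqrt_pos.2 (by norm_num)
  have hss : Real.sqrt 3 * Real.sqrt 3 = 3 := Real.mul_self_sqrt (by norm_num)
  rw [h1, h2, h3, h6, h7, Real.Gamma_one]
  have e1 : Real.Gamma (5/6) * (1/6 * Real.Gamma (1/6)) * 1 * 1 = Real.pi / 3 := by
    linear_combination (1/6 : ℝ) * h4
  have e2 : Real.pi * (1/3 * Real.Gamma (1/3)) * (2/3 * Real.Gamma (2/3)) =
      4 * Real.pi ^ 2 / (9 * Real.sqrt 3) := by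
    have : Real.pi * (1/3 * Real.Gamma (1/3)) * (2/3 * Real.Gamma (2/3)) =
      2/9 * Real.pi * (Real.Gamma (1/3) * Real.Gamma (2/3)) := by ring
    rw [this, h5]
    field_simp
    ring
  rw [e1, e2]
  field_simp
  norm_num

theorem tendsto_ratio : Tendsto (fun n : ℕ => (2 * (n : ℝ) + 1) * ratio n) atTop (𝓝 cc) := by
  have h1 : Tendsto (fun n : ℕ => (n : ℝ) * ratio (n + 1)) atTop
      (𝓝 (3 * Real.sqrt 3 / (4 * Real.pi))) := by
    rw [← gamma_value]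
    have hlim : Tendsto (fun n : ℕ => (Real.GammaSeq (5/6) n * Real.GammaSeq (7/6) n *
        Real.GammaSeq 1 n * Real.GammaSeq 2 n) /
        (Real.GammaSeq (1/2) n ^ 2 * Real.GammaSeq (4/3) n * Real.GammaSeq (5/3) n)) atTop
        (𝓝 ((Real.Gamma (5/6) * Real.Gamma (7/6) * Real.Gamma 1 * Real.Gamma 2) /
      (Real.Gamma (1/2) ^ 2 * Real.Gamma (4/3) * Real.Gamma (5/3)))) := by
      refine Tendsto.div ?_ ?_ ?_
      · exact (((Real.GammaSeq_tendsto_Gamma _).mul (Real.GammaSeq_tendsto_Gamma _)).mul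
          (Real.GammaSeq_tendsto_Gamma _)).mul (Real.GammaSeq_tendsto_Gamma _)
      · exact (((Real.GammaSeq_tendsto_Gamma _).pow 2).mul (Real.GammaSeq_tendsto_Gamma _)).mul
          (Real.GammaSeq_tendsto_Gamma _)
      · have a1 := Real.Gamma_pos_of_pos (show (0 : ℝ) < 1/2 by norm_num)
        have a2 := Real.Gamma_pos_of_pos (show (0 : ℝ) < 4/3 by norm_num)
        have a3 := Real.Gamma_pos_of_pos (show (0 : ℝ) < 5/3 by norm_num)
        positivity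
    refine hlim.congr' ?_
    filter_upwards [eventually_ge_atTop 1] with n hn
    exact (ratio_gamma n hn).symm
  have h2 : Tendsto (fun n : ℕ => (2 * ((n + 1 : ℕ) : ℝ) + 1) * ratio (n + 1)) atTop (𝓝 cc) := by
    have h3 : Tendsto (fun n : ℕ => 2 + 3 / (n : ℝ)) atTop (𝓝 (2 + 0)) :=
      (tendsto_const_div_atTop_nhds_zero_nat 3).const_add 2
    have h4 := h3.mul h1
    have h5 : (2 + 0) * (3 * Real.sqrt 3 / (4 * Real.pi)) = cc := by
      unfold cc
      have := Real.pi_pos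
      field_simp
      ring
    rw [h5] at h4
    refine h4.congr' ?_
    filter_upwards [eventually_ge_atTop 1] with n hn
    have hn0 : (0 : ℝ) < n := by exact_mod_cast hn
    push_cast
    field_simp
    ring
  exact (tendsto_add_atTop_iff_nat 1).1 h2

theorem anti : Antitone (fun n : ℕ => (2 * (n : ℝ) + 1) * ratio n) := by
  refine antitone_nat_of_succ_le fun n => ?_
  have hn : (0 : ℝ) ≤ n := by positivity
  have hr := ratio_pos n
  show (2 * ((n + 1 : ℕ) : ℝ) + 1) * ratio (n + 1) ≤ (2 * (n : ℝ) + 1) * ratio n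
  rw [ratio_succ]
  push_cast
  have h1 : (2 * ((n : ℝ) + 1) + 1) * (ratio n * ((2 * (n : ℝ) + 1) ^ 2 * (3 * n + 4) * (3 * n + 5) /
      ((6 * n + 5) * (6 * n + 7) * (n + 1) * (n + 2)))) = ((2 * (n : ℝ) + 1) * ratio n) *
      ((2 * (n : ℝ) + 3) * (2 * n + 1) * (3 * n + 4) * (3 * n + 5) /
      ((6 * n + 5) * (6 * n + 7) * (n + 1) * (n + 2))) := by
    field_simp
    ring
  rw [h1]
  refine mul_le_of_le_one_right (by positivity) ?_
  rw [div_le_one (by positivity)]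
  nlinarith

theorem mono2 : Monotone (fun n : ℕ => (2 * (n : ℝ) + 1) * ratio n /
    (1 + 1 / (2 * (2 * (n : ℝ) + 1) ^ 2))) := by
  refine monotone_nat_of_le_succ fun n => ?_
  have hn : (0 : ℝ) ≤ n := by positivity
  have hr := ratio_pos n
  show (2 * (n : ℝ) + 1) * ratio n / (1 + 1 / (2 * (2 * (n : ℝ) + 1) ^ 2)) ≤
    (2 * ((n + 1 : ℕ) : ℝ) + 1) * ratio (n + 1) / (1 + 1 / (2 * (2 * ((n + 1 : ℕ) : ℝ) + 1) ^ 2))
  rw [ratio_succ]
  push_cast
  rw [div_le_div_iff₀ (by positivity) (by positivity)]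
  have h1 : (2 * ((n : ℝ) + 1) + 1) * (ratio n * ((2 * (n : ℝ) + 1) ^ 2 * (3 * n + 4) * (3 * n + 5) /
      ((6 * n + 5) * (6 * n + 7) * (n + 1) * (n + 2)))) = ((2 * (n : ℝ) + 1) * ratio n) *
      ((2 * (n : ℝ) + 3) * (2 * n + 1) * (3 * n + 4) * (3 * n + 5) /
      ((6 * n + 5) * (6 * n + 7) * (n + 1) * (n + 2))) := by
    field_simp
    ring
  rw [h1, mul_assoc ((2 * (n : ℝ) + 1) * ratio n)]
  refine mul_le_mul_of_nonneg_left ?_ (by positivity)
  have h2 : (1 : ℝ) + 1 / (2 * (2 * (n : ℝ) + 1) ^ 2) =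
      (2 * (2 * (n : ℝ) + 1) ^ 2 + 1) / (2 * (2 * (n : ℝ) + 1) ^ 2) := by
    field_simp
  have h3 : (1 : ℝ) + 1 / (2 * (2 * ((n : ℝ) + 1) + 1) ^ 2) =
      (2 * (2 * (n : ℝ) + 3) ^ 2 + 1) / (2 * (2 * (n : ℝ) + 3) ^ 2) := by
    rw [show 2 * ((n : ℝ) + 1) + 1 = 2 * n + 3 by ring]
    field_simp
  rw [h2, h3, div_mul_div_comm, div_le_div_iff₀ (by positivity) (by positivity)]
  have hd : 0 ≤ ((2 * (n : ℝ) + 3) * (2 * n + 1) * (3 * n + 4) * (3 * n + 5) *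
      (2 * (2 * (n : ℝ) + 1) ^ 2 + 1)) * (2 * (2 * (n : ℝ) + 3) ^ 2) -
      (2 * (2 * (n : ℝ) + 3) ^ 2 + 1) * (((6 * n + 5) * (6 * n + 7) * (n + 1) * (n + 2)) *
        (2 * (2 * (n : ℝ) + 1) ^ 2)) := by
    ring_nf
    positivity
  linarith

theorem ratio_bounds (n : ℕ) : cc ≤ (2 * (n : ℝ) + 1) * ratio n ∧
    (2 * (n : ℝ) + 1) * ratio n ≤ cc * (1 + 1 / (2 * (2 * (n : ℝ) + 1) ^ 2)) := by
  constructor
  · exact anti.le_of_tendsto tendsto_ratio n
  · have h1 : Tendsto (fun n : ℕ => (2 * (n : ℝ) + 1) * ratio n /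
        (1 + 1 / (2 * (2 * (n : ℝ) + 1) ^ 2))) atTop (𝓝 (cc / (1 + 0))) := by
      refine tendsto_ratio.div ?_ (by norm_num)
      refine Tendsto.const_add 1 ?_
      have h5 : Tendsto (fun n : ℕ => 2 * (n : ℝ) + 1) atTop atTop :=
        tendsto_atTop_add_const_right _ _
          (tendsto_natCast_atTop_atTop.const_mul_atTop (by norm_num : (0 : ℝ) < 2))
      have h6 : Tendsto (fun n : ℕ => 2 * (2 * (n : ℝ) + 1) ^ 2) atTop atTop :=
        ((tendsto_pow_atTop two_ne_zero).comp h5).const_mul_atTop (by norm_num : (0 : ℝ) < 2)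
      simp only [one_div]
      exact tendsto_inv_atTop_zero.comp h6
    rw [add_zero, div_one] at h1
    have h2 := mono2.ge_of_tendsto h1 n
    rwa [div_le_iff₀ (by positivity)] at h2

theorem p4_ratio (n : ℕ) (hn : 1 ≤ n) :
    Pool.Agent.H988R3.p4val n = Pool.Agent.H974R3.pval n * ratio n := by
  obtain ⟨k, rfl⟩ : ∃ k, n = k + 1 := ⟨n - 1, by omega⟩
  unfold Pool.Agent.H988R3.p4val ratio
  rw [Finset.prod_range_succ', Nat.add_sub_cancel, mul_assoc]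
  congr 1
  rw [mul_comm]
  congr 1
  · refine Finset.prod_congr rfl fun i _ => ?_
    push_cast
    ring_nf
  · norm_num

end Pool.Agent.Helper21.PD
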