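import Pool.Agent.Helper21.ID.Defs

/-!
# The orientation of the infinite interface on cylinders of odd circumference
-/

namespace Pool.Agent.Helper21.PD

open Pool.Agent.Helper21.ID

/-- `F` is the orientation of the infinite interfaces from the bottom to the top: it has the values
`1` or `-1` on the infinite strands and `0` on the others, it is transported along the strands
(`F (v j t) = 1`: the edge `v j t` is traversed upwards, `F (h j t) = 1`: the edge `h j t` is
traversed to the right), and the total upward flux through every level is `1`. -/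
structure Orient {n : ℕ} (ω : Fin (2 * n + 1) × ℤ → Bool) (F : Edg n → ℤ) : Prop where
  val : ∀ e, F e = 0 ∨ F e = 1 ∨ F e = -1
  supp : ∀ e, F e ≠ 0 ↔ (strand ω e).Infinite
  f : ∀ j t, ω (j, t) = false →
    F (Edg.v j t) = F (Edg.h (j + 1) t) ∧ F (Edg.v j (t + 1)) = F (Edg.h j t)
  t : ∀ j t, ω (j, t) = true →
    F (Edg.v j t) = -F (Edg.h j t) ∧ F (Edg.v j (t + 1)) = -F (Edg.h (j + 1) t)
  up : ∀ t, ∑ j, F (Edg.v j t) = 1

/-- `∏_{i<n} (2i+1)² (3i+4) (3i+5) / ((6i+5) (6i+7) (i+1) (i+2))` -/
noncomputable def ratio (n : ℕ) : ℝ :=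
  ∏ i ∈ Finset.range n, (2 * (i : ℝ) + 1) ^ 2 * (3 * i + 4) * (3 * i + 5) /
    ((6 * i + 5) * (6 * i + 7) * (i + 1) * (i + 2))

end Pool.Agent.Helper21.PD
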