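import Pool.Agent.Helper21.ID.Flux
import Pool.Agent.Helper21.PD.Defs

/-!
# Existence, uniqueness and windows of the orientation
-/

namespace Pool.Agent.Helper21.PD

open Pool.Agent.H974R3 Pool.Agent.H988R4 Pool.Agent.H988R3 Pool.Agent.Helper21.ID

theorem hneg {a b : ℤ} (hab : a = -b) : (a ≠ 0 ↔ b ≠ 0) := by
  rw [hab]
  simp

/-- a flux with total zero vanishes on the infinite strands -/
theorem zero_total {n : ℕ} {ω : Fin (2 * n + 1) × ℤ → Bool} {G : Edg n → ℤ} {a b t1 t2 : ℤ}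
    (hG : IsFlux ω G a b) (h1 : a ≤ t1) (h12 : t1 < t2) (h2 : t2 < b) (a1 : AltRow ω t1)
    (a2 : AltRow ω t2) {t0 : ℤ} (h3 : a ≤ t0) (h4 : t0 ≤ b) (htot : ∑ i, G (Edg.v i t0) = 0)
    {e : Edg n} (he : Reg t1 t2 e) (hq : G e ≠ 0) : (strand ω e).Finite := by
  have hall : ∀ t, a ≤ t → t ≤ b → ∑ i, G (Edg.v i t) = 0 := by
    intro t h5 h6
    rcases le_total t t0 with h | h
    · have := flux_total hG (t := t) h5 (t0 - t).toNat (by omega)
      rw [show t + ((t0 - t).toNat : ℤ) = t0 by omega, htot] at this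
      exact this.symm
    · have := flux_total hG (t := t0) h3 (t - t0).toNat (by omega)
      rw [show t0 + ((t - t0).toNat : ℤ) = t by omega, htot] at this
      exact this
  have htot1 := hall t1 h1 (by omega)
  have htot2 := hall t2 (by omega) (by omega)
  rw [flux_last hG h1 (by omega) a1] at htot1
  rw [flux_last hG (by omega) h2 a2] at htot2
  apply stay_strand (t1 := t1) (t2 := t2) h12 a1 a2 (Q := fun e => G e ≠ 0)
  · intro i t c1 c2
    refine ⟨fun hω => ?_, fun hω => ?_⟩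
    · have := hG.f i t (by omega) (by omega) hω
      constructor
      · show G (Edg.v i t) ≠ 0 ↔ G (Edg.h (i + 1) t) ≠ 0
        rw [this.1]
      · show G (Edg.h i t) ≠ 0 ↔ G (Edg.v i (t + 1)) ≠ 0
        rw [this.2]
    · have := hG.t i t (by omega) (by omega) hω
      exact ⟨hneg this.1, (hneg this.2).symm⟩
  · have h5 : ω (lst n, t1) = false := by rw [a1]; simp [lst]
    have h6 := (hG.f (lst n) t1 h1 (by omega) h5).1
    rw [lst_succ, htot1] at h6
    simpa using h6.symm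
  · simpa using htot2
  · exact he
  · exact hq

theorem isFlux_sub {n : ℕ} {ω : Fin (2 * n + 1) × ℤ → Bool} {F G : Edg n → ℤ} {a b : ℤ}
    (hF : IsFlux ω F a b) (hG : IsFlux ω G a b) : IsFlux ω (fun e => F e - G e) a b := by
  constructor
  · intro j t h1 h2 hω
    have e1 := hF.f j t h1 h2 hω
    have e2 := hG.f j t h1 h2 hω
    exact ⟨by rw [e1.1, e2.1], by rw [e1.2, e2.2]⟩
  · intro j t h1 h2 hω
    have e1 := hF.t j t h1 h2 hω
    have e2 := hG.t j t h1 h2 hω
    constructor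
    · show F _ - G _ = -(F _ - G _)
      rw [e1.1, e2.1]; ring
    · show F _ - G _ = -(F _ - G _)
      rw [e1.2, e2.2]; ring

theorem isFlux_mono {n : ℕ} {ω : Fin (2 * n + 1) × ℤ → Bool} {F : Edg n → ℤ} {a b a' b' : ℤ}
    (hF : IsFlux ω F a b) (h1 : a ≤ a') (h2 : b' ≤ b) : IsFlux ω F a' b' :=
  ⟨fun j t h3 h4 => hF.f j t (by omega) (by omega), fun j t h3 h4 => hF.t j t (by omega) (by omega)⟩

theorem Orient.isFlux {n : ℕ} {ω : Fin (2 * n + 1) × ℤ → Bool} {F : Edg n → ℤ} (h : Orient ω F)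
    (a b : ℤ) : IsFlux ω F a b :=
  ⟨fun j t _ _ hω => h.f j t hω, fun j t _ _ hω => h.t j t hω⟩

/-- comparison of two fluxes with the same total on the infinite strands -/
theorem flux_eq {n : ℕ} {ω : Fin (2 * n + 1) × ℤ → Bool} {F G : Edg n → ℤ} {a b t1 t2 : ℤ}
    (hF : IsFlux ω F a b) (hG : IsFlux ω G a b) (h1 : a ≤ t1) (h12 : t1 < t2) (h2 : t2 < b)
    (a1 : AltRow ω t1) (a2 : AltRow ω t2) {t0 : ℤ} (h3 : a ≤ t0) (h4 : t0 ≤ b)
    (htot : ∑ i, F (Edg.v i t0) = ∑ i, G (Edg.v i t0)) {e : Edg n} (he : Reg t1 t2 e)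
    (hi : (strand ω e).Infinite) : F e = G e := by
  by_contra hne
  apply hi
  refine zero_total (isFlux_sub hF hG) h1 h12 h2 a1 a2 h3 h4 ?_ he ?_
  · rw [Finset.sum_sub_distrib, htot, sub_self]
  · show F e - G e ≠ 0
    exact sub_ne_zero.2 hne

theorem reg_of_ht {n : ℕ} {e : Edg n} {t1 t2 : ℤ} (h1 : t1 < ht e) (h2 : ht e < t2) :
    Reg t1 t2 e := by
  rcases e with ⟨j, s⟩ | ⟨j, s⟩
  · exact ⟨h1, le_of_lt h2⟩
  · exact Or.inl ⟨h1, h2⟩

instance (n : ℕ) : Nonempty (Pat (2 * n + 1)) := ⟨base n⟩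

/-- a flux of total one in a window -/
theorem window_flux {n : ℕ} (ω : Fin (2 * n + 1) × ℤ → Bool) (M : ℕ) :
    ∃ F : Edg n → ℤ, IsFlux ω F (-(M : ℤ)) M ∧ ∑ j, F (Edg.v j 0) = 1 := by
  set σ : Pat (2 * n + 1) := base n
  set s := rows (2 * n) (lowc ω 0 M) M σ with hs
  set u := rows (2 * n) (uppc ω 0 M) M σ with hu
  obtain ⟨g, hg⟩ := exists_alt s.1 u.1 s.2.inv s.2.nofix u.2.inv u.2.nofix
  obtain ⟨φ, f1, f2, f3, -, -⟩ := flux_exists s u g hg
  obtain ⟨F, hF, hF0⟩ := exists_flux ω 0 M σ σ φ f1 f2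
  refine ⟨F, ?_, ?_⟩
  · rw [zero_sub, zero_add] at hF
    exact hF
  · simp only [hF0]
    rw [sum_flux f1, f3]
    rfl

theorem good_window {n : ℕ} {ω : Fin (2 * n + 1) × ℤ → Bool} (hg : Good ω) (t : ℤ) :
    ∃ K : ℕ, ∃ t1 t2 : ℤ, AltRow ω t1 ∧ AltRow ω t2 ∧ -(K : ℤ) ≤ t1 ∧ t1 < t ∧ t < t2 ∧
      t2 < K := by
  obtain ⟨t1, h1, a1⟩ := (hg t).1
  obtain ⟨t2, h2, a2⟩ := (hg (t + 1)).2
  exact ⟨t1.natAbs + t2.natAbs + 1, t1, t2, a1, a2, by omega, h1, by omega, by omega⟩

/-- there is an orientation -/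
theorem exists_orient {n : ℕ} {ω : Fin (2 * n + 1) × ℤ → Bool} (hg : Good ω) :
    ∃ F, Orient ω F := by
  classical
  choose W hW1 hW2 using window_flux ω
  choose K T1 T2 k1 k2 k3 k4 k5 k6 using good_window hg
  -- windows agree
  have key : ∀ (e : Edg n) (N : ℕ), K (ht e) ≤ N → (strand ω e).Infinite →
      W N e = W (K (ht e)) e := by
    intro e N hN hi
    have hN' : ((K (ht e) : ℕ) : ℤ) ≤ N := by exact_mod_cast hN
    have h3 := k3 (ht e)
    have h6 := k6 (ht e)
    exact flux_eq (isFlux_mono (hW1 N) (by omega) hN') (hW1 (K (ht e))) h3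
      ((k4 (ht e)).trans (k5 (ht e))) h6 (k1 (ht e)) (k2 (ht e)) (t0 := 0) (by omega) (by omega)
      (by rw [hW2, hW2]) (reg_of_ht (k4 (ht e)) (k5 (ht e))) hi
  set F : Edg n → ℤ := fun e => if (strand ω e).Infinite then W (K (ht e)) e else 0 with hF
  have hinf : ∀ e e', Link ω e e' → ((strand ω e).Infinite ↔ (strand ω e').Infinite) := by
    intro e e' h
    have h1 : strand ω e = strand ω e' := by
      ext x
      exact ⟨fun hx => Relation.EqvGen.trans _ _ _ (Relation.EqvGen.symm _ _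
        (Relation.EqvGen.rel _ _ h)) hx, fun hx => Relation.EqvGen.trans _ _ _
        (Relation.EqvGen.rel _ _ h) hx⟩
    rw [h1]
  have hval : ∀ (e : Edg n) (N : ℕ), K (ht e) ≤ N → (strand ω e).Infinite → F e = W N e := by
    intro e N hN hi
    rw [key e N hN hi]
    exact if_pos hi
  have hzero : ∀ e : Edg n, ¬ (strand ω e).Infinite → F e = 0 := fun e hi => if_neg hi
  have rf : ∀ j t, ω (j, t) = false →
      F (Edg.v j t) = F (Edg.h (j + 1) t) ∧ F (Edg.v j (t + 1)) = F (Edg.h j t) := by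
    intro j t hω
    set N : ℕ := K t + K (t + 1) + t.natAbs + 1 with hN
    have hr := (hW1 N).f j t (by omega) (by omega) hω
    have l1 := hinf _ _ (Link.br j t hω)
    have l2 := hinf _ _ (Link.lt j t hω)
    constructor
    · by_cases hi : (strand ω (Edg.v j t)).Infinite
      · rw [hval _ N (by show K t ≤ N; omega) hi, hval _ N (by show K t ≤ N; omega) (l1.1 hi)]
        exact hr.1
      · rw [hzero _ hi, hzero _ (fun h => hi (l1.2 h))]
    · by_cases hi : (strand ω (Edg.h j t)).Infinite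
      · rw [hval _ N (by show K t ≤ N; omega) hi,
          hval _ N (by show K (t + 1) ≤ N; omega) (l2.1 hi)]
        exact hr.2
      · rw [hzero _ hi, hzero _ (fun h => hi (l2.2 h))]
  have rt : ∀ j t, ω (j, t) = true →
      F (Edg.v j t) = -F (Edg.h j t) ∧ F (Edg.v j (t + 1)) = -F (Edg.h (j + 1) t) := by
    intro j t hω
    set N : ℕ := K t + K (t + 1) + t.natAbs + 1 with hN
    have hr := (hW1 N).t j t (by omega) (by omega) hω
    have l1 := hinf _ _ (Link.bl j t hω)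
    have l2 := hinf _ _ (Link.rt j t hω)
    constructor
    · by_cases hi : (strand ω (Edg.v j t)).Infinite
      · rw [hval _ N (by show K t ≤ N; omega) hi, hval _ N (by show K t ≤ N; omega) (l1.1 hi)]
        exact hr.1
      · rw [hzero _ hi, hzero _ (fun h => hi (l1.2 h)), neg_zero]
    · by_cases hi : (strand ω (Edg.h (j + 1) t)).Infinite
      · rw [hval _ N (by show K t ≤ N; omega) hi,
          hval _ N (by show K (t + 1) ≤ N; omega) (l2.1 hi)]
        exact hr.2
      · rw [hzero _ hi, hzero _ (fun h => hi (l2.2 h)), neg_zero]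
  have hFl : ∀ a b, IsFlux ω F a b := fun a b =>
    ⟨fun j t _ _ hω => rf j t hω, fun j t _ _ hω => rt j t hω⟩
  -- the gate
  obtain ⟨t, ht0, hat⟩ := (hg 0).2
  have hgate : (strand ω (Edg.v (lst n) t)).Infinite := by
    rw [infinite_iff hg _ hat]
    exact Relation.EqvGen.refl _
  have hgv : F (Edg.v (lst n) t) = 1 := by
    set N : ℕ := K t + t.natAbs + 1 with hN
    rw [hval _ N (by show K t ≤ N; omega) hgate]
    rw [← flux_last (hW1 N) (by omega) (by omega) hat]
    have := flux_total (hW1 N) (t := 0) (by omega) t.toNat (by omega)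
    rw [show (0 : ℤ) + (t.toNat : ℤ) = t by omega, hW2] at this
    exact this
  have hsum : ∀ s, ∑ j, F (Edg.v j s) = 1 := by
    have h0 : ∑ j, F (Edg.v j t) = 1 := by
      rw [flux_last (hFl t (t + 1)) le_rfl (by omega) hat, hgv]
    intro s
    rcases le_total s t with h | h
    · have := flux_total (hFl s t) (t := s) le_rfl (t - s).toNat (by omega)
      rw [show s + ((t - s).toNat : ℤ) = t by omega, h0] at this
      exact this.symm
    · have := flux_total (hFl t s) (t := t) le_rfl (s - t).toNat (by omega)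
      rw [show t + ((s - t).toNat : ℤ) = s by omega, h0] at this
      exact this
  have habs : ∀ e e', Link ω e e' → |F e| = |F e'| := by
    intro e e' h
    cases h with
    | br j t hω => rw [(rf j t hω).1]
    | lt j t hω => rw [(rf j t hω).2]
    | bl j t hω => rw [(rt j t hω).1, abs_neg]
    | rt j t hω => rw [(rt j t hω).2, abs_neg]
  have hone : ∀ e, (strand ω e).Infinite → |F e| = 1 := by
    intro e hi
    have h1 : Edg.v (lst n) t ∈ strand ω e := (infinite_iff hg e hat).1 hi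
    have h2 := invar (l := fun e => |F e|) habs h1
    have h3 : |F e| = |F (Edg.v (lst n) t)| := h2
    rw [h3, hgv, abs_one]
  refine ⟨F, ⟨?_, ?_, rf, rt, hsum⟩⟩
  · intro e
    by_cases hi : (strand ω e).Infinite
    · right
      have := hone e hi
      rcases abs_eq (by norm_num : (0 : ℤ) ≤ 1) |>.1 this with h | h
      · exact Or.inl h
      · exact Or.inr h
    · exact Or.inl (hzero e hi)
  · intro e
    constructor
    · intro h
      by_contra hi
      exact h (hzero e hi)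
    · intro hi h
      have := hone e hi
      rw [h] at this
      simp at this

/-- the orientation is unique -/
theorem orient_unique {n : ℕ} {ω : Fin (2 * n + 1) × ℤ → Bool} (hg : Good ω) {F G : Edg n → ℤ}
    (hF : Orient ω F) (hG : Orient ω G) : F = G := by
  funext e
  by_cases hi : (strand ω e).Infinite
  · obtain ⟨K, t1, t2, a1, a2, h1, h2, h3, h4⟩ := good_window hg (ht e)
    exact flux_eq (hF.isFlux t1 (t2 + 1)) (hG.isFlux _ _) le_rfl (h2.trans h3) (by omega) a1 a2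
      (t0 := t1) le_rfl (by omega) (by rw [hF.up, hG.up]) (reg_of_ht h2 h3) hi
  · have h1 : F e = 0 := by
      by_contra h
      exact hi ((hF.supp e).1 h)
    have h2 : G e = 0 := by
      by_contra h
      exact hi ((hG.supp e).1 h)
    rw [h1, h2]

/-! ### the orientation and the patterns -/

/-- if the strand `j` of level `t0` lies on the infinite line of the picture then it is infinite -/
theorem infinite_of_conn {n : ℕ} {ω : Fin (2 * n + 1) × ℤ → Bool} (hg : Good ω) (t0 : ℤ) (M : ℕ)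
    (σ τ : Pat (2 * n + 1)) (j : Fin (2 * n + 1)) (t1 t2 : ℤ) (h1 : t0 - M < t1) (h1' : t1 < t0)
    (h2 : t0 ≤ t2) (h2' : t2 < t0 + M) (a1 : AltRow ω t1) (a2 : AltRow ω t2)
    (h : Conn (rows (2 * n) (lowc ω t0 M) M σ).1 (rows (2 * n) (uppc ω t0 M) M τ).1
      (some j) none) : (strand ω (Edg.v j t0)).Infinite := by
  obtain ⟨e, he, hM⟩ := conn_reach ω t0 M σ τ j h
  rw [infinite_iff hg _ a1]
  by_contra hcon
  have hclosed : ∀ e1 e2, Link ω e1 e2 → (e1 ∈ strand ω (Edg.v j t0) ↔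
      e2 ∈ strand ω (Edg.v j t0)) := fun e1 e2 hee =>
    ⟨fun h1 => Relation.EqvGen.trans _ _ _ h1 (Relation.EqvGen.rel _ _ hee),
      fun h1 => Relation.EqvGen.trans _ _ _ h1
        (Relation.EqvGen.symm _ _ (Relation.EqvGen.rel _ _ hee))⟩
  have hQ : Along ω t1 t2 (fun e' => e' ∈ strand ω (Edg.v j t0)) := by
    intro i s c1 c2
    exact ⟨fun hω => ⟨hclosed _ _ (Link.br _ _ hω), hclosed _ _ (Link.lt _ _ hω)⟩,
      fun hω => ⟨hclosed _ _ (Link.bl _ _ hω), hclosed _ _ (Link.rt _ _ hω)⟩⟩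
  have q1 : ¬ (Edg.h 0 t1 ∈ strand ω (Edg.v j t0)) := fun h3 =>
    hcon ((hclosed _ _ (gate_h a1)).2 h3)
  have q2 : ¬ (Edg.v (lst n) t2 ∈ strand ω (Edg.v j t0)) := fun h3 =>
    hcon (gates ω _ a2 a1 h3)
  have hr := invar (l := fun e' => (Reg t1 t2 e' ∧ e' ∈ strand ω (Edg.v j t0)))
    (fun e e' hl => propext (stay (by omega) a1 a2 hQ q1 q2 hl)) he
  have hr2 : (Reg t1 t2 (Edg.v j t0) ∧ Edg.v j t0 ∈ strand ω (Edg.v j t0)) =
    (Reg t1 t2 e ∧ e ∈ strand ω (Edg.v j t0)) := hr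
  have hr3 : Reg t1 t2 e := by
    have : Reg t1 t2 e ∧ e ∈ strand ω (Edg.v j t0) := by
      rw [← hr2]
      exact ⟨⟨h1', h2⟩, Relation.EqvGen.refl _⟩
    exact this.1
  have hh : t1 ≤ ht e ∧ ht e ≤ t2 := by
    rcases e with ⟨i, s⟩ | ⟨i, s⟩
    · have h5 : t1 < s ∧ s ≤ t2 := hr3
      exact ⟨h5.1.le, h5.2⟩
    · have h5 : (t1 < s ∧ s < t2) ∨ (s = t1 ∧ i.val % 2 = 0) ∨ (s = t2 ∧ i.val % 2 = 1) := hr3
      show t1 ≤ s ∧ s ≤ t2
      omega
  rcases abs_cases (ht e - t0) with h6 | h6 <;> omega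

/-- in a window with alternating rows the orientation is given by the alternating functions -/
theorem orient_window {n : ℕ} {ω : Fin (2 * n + 1) × ℤ → Bool} {F : Edg n → ℤ} (hF : Orient ω F)
    (t0 : ℤ) (M : ℕ) (σ τ : Pat (2 * n + 1)) (t1 t2 : ℤ) (h1 : t0 - M ≤ t1)
    (h1' : t1 < t0) (h2 : t0 ≤ t2) (h2' : t2 < t0 + M) (a1 : AltRow ω t1) (a2 : AltRow ω t2)
    (h : Vx (2 * n + 1) → Bool)
    (hh : Alt (rows (2 * n) (lowc ω t0 M) M σ).1 (rows (2 * n) (uppc ω t0 M) M τ).1 h)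
    (j : Fin (2 * n + 1)) (hi : (strand ω (Edg.v j t0)).Infinite) :
    F (Edg.v j t0) = if h (some j) = h none then -1 else 1 := by
  obtain ⟨φ, f1, f2, f3, -, f5⟩ := flux_exists _ _ h hh
  obtain ⟨G, hG, hG0⟩ := exists_flux ω t0 M σ τ φ f1 f2
  have htot : ∑ i, G (Edg.v i t0) = 1 := by
    simp only [hG0]
    rw [sum_flux f1, f3]
    rfl
  have e1 : F (Edg.v j t0) = G (Edg.v j t0) :=
    flux_eq (hF.isFlux _ _) hG h1 (by omega) h2' a1 a2 (t0 := t0) (by omega) (by omega)
      (by rw [hF.up, htot]) ⟨h1', h2⟩ hi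
  rw [e1, hG0, f5]
  by_contra hc
  exact hi (finite_of_not_conn ω t0 M σ τ j t1 t2 h1 h1' h2 h2' a1 a2 hc)

/-- windows: the strand `j` is traversed upwards -/
theorem up_iff {n : ℕ} {ω : Fin (2 * n + 1) × ℤ → Bool} (hg : Good ω) {F : Edg n → ℤ}
    (hF : Orient ω F)
    (t0 : ℤ) (M : ℕ) (σ τ : Pat (2 * n + 1)) (t1 t2 : ℤ) (h1 : t0 - M < t1)
    (h1' : t1 < t0) (h2 : t0 ≤ t2) (h2' : t2 < t0 + M) (a1 : AltRow ω t1) (a2 : AltRow ω t2)
    (j : Fin (2 * n + 1)) :
    F (Edg.v j t0) = 1 ↔ (Conn (rows (2 * n) (lowc ω t0 M) M σ).1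
      (rows (2 * n) (uppc ω t0 M) M τ).1 (some j) none ∧ ∀ h,
      Alt (rows (2 * n) (lowc ω t0 M) M σ).1 (rows (2 * n) (uppc ω t0 M) M τ).1 h →
      h (some j) ≠ h none) := by
  constructor
  · intro h
    have hi : (strand ω (Edg.v j t0)).Infinite := (hF.supp _).1 (by rw [h]; norm_num)
    constructor
    · by_contra hc
      exact hi (finite_of_not_conn ω t0 M σ τ j t1 t2 h1.le h1' h2 h2' a1 a2 hc)
    · intro g hgg heq
      have := orient_window hF t0 M σ τ t1 t2 h1.le h1' h2 h2' a1 a2 g hgg j hi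
      rw [if_pos heq, h] at this
      exact absurd this (by norm_num)
  · rintro ⟨hc, hh⟩
    have hi := infinite_of_conn hg t0 M σ τ j t1 t2 h1 h1' h2 h2' a1 a2 hc
    obtain ⟨g, hgg⟩ := exists_alt (rows (2 * n) (lowc ω t0 M) M σ).1
      (rows (2 * n) (uppc ω t0 M) M τ).1 (rows (2 * n) (lowc ω t0 M) M σ).2.inv
      (rows (2 * n) (lowc ω t0 M) M σ).2.nofix (rows (2 * n) (uppc ω t0 M) M τ).2.inv
      (rows (2 * n) (uppc ω t0 M) M τ).2.nofix
    rw [orient_window hF t0 M σ τ t1 t2 h1.le h1' h2 h2' a1 a2 g hgg j hi, if_neg (hh g hgg)]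

/-- windows: the strands `i` and `j` are traversed in the same direction -/
theorem same_iff {n : ℕ} {ω : Fin (2 * n + 1) × ℤ → Bool} (hg : Good ω) {F : Edg n → ℤ}
    (hF : Orient ω F)
    (t0 : ℤ) (M : ℕ) (σ τ : Pat (2 * n + 1)) (t1 t2 : ℤ) (h1 : t0 - M < t1)
    (h1' : t1 < t0) (h2 : t0 ≤ t2) (h2' : t2 < t0 + M) (a1 : AltRow ω t1) (a2 : AltRow ω t2)
    (i j : Fin (2 * n + 1)) :
    (F (Edg.v i t0) ≠ 0 ∧ F (Edg.v i t0) = F (Edg.v j t0)) ↔
      P4 i j (rows (2 * n) (lowc ω t0 M) M σ) (rows (2 * n) (uppc ω t0 M) M τ) := by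
  classical
  set s := rows (2 * n) (lowc ω t0 M) M σ with hs
  set u := rows (2 * n) (uppc ω t0 M) M τ with hu
  constructor
  · rintro ⟨h3, h4⟩
    have hi : (strand ω (Edg.v i t0)).Infinite := (hF.supp _).1 h3
    have hj : (strand ω (Edg.v j t0)).Infinite := (hF.supp _).1 (by rw [← h4]; exact h3)
    refine ⟨?_, ?_⟩
    · by_contra hc
      exact hi (finite_of_not_conn ω t0 M σ τ i t1 t2 h1.le h1' h2 h2' a1 a2 hc)
    · intro g hgg
      have e1 := orient_window hF t0 M σ τ t1 t2 h1.le h1' h2 h2' a1 a2 g hgg i hi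
      have e2 := orient_window hF t0 M σ τ t1 t2 h1.le h1' h2 h2' a1 a2 g hgg j hj
      rw [e1, e2] at h4
      revert h4
      generalize g (some i) = x
      generalize g (some j) = y
      generalize g none = z
      cases x <;> cases y <;> cases z <;> simp
  · rintro ⟨hc, hsame⟩
    have hi := infinite_of_conn hg t0 M σ τ i t1 t2 h1 h1' h2 h2' a1 a2 hc
    obtain ⟨g, hgg⟩ := exists_alt s.1 u.1 s.2.inv s.2.nofix u.2.inv u.2.nofix
    have hcj : Conn s.1 u.1 (some j) none := by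
      by_contra hcj
      have hg2 : Alt s.1 u.1 (fun v => if Conn s.1 u.1 v none then g v else !g v) := by
        constructor
        · intro v
          show (if Conn s.1 u.1 (s.1 v) none then g (s.1 v) else !g (s.1 v)) =
            !(if Conn s.1 u.1 v none then g v else !g v)
          by_cases hv : Conn s.1 u.1 v none
          · rw [if_pos hv, if_pos ((T3_conn_left s u v).2 hv), hgg.1]
          · rw [if_neg hv, if_neg (fun h => hv ((T3_conn_left s u v).1 h)), hgg.1]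
        · intro v
          show (if Conn s.1 u.1 (u.1 v) none then g (u.1 v) else !g (u.1 v)) =
            !(if Conn s.1 u.1 v none then g v else !g v)
          by_cases hv : Conn s.1 u.1 v none
          · rw [if_pos hv, if_pos ((T3_conn_right s u v).2 hv), hgg.2]
          · rw [if_neg hv, if_neg (fun h => hv ((T3_conn_right s u v).1 h)), hgg.2]
      have e1 := hsame g hgg
      have e2 := hsame _ hg2
      simp only [if_pos hc, if_neg hcj] at e2
      rw [e1] at e2
      simp at e2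
    have hj := infinite_of_conn hg t0 M σ τ j t1 t2 h1 h1' h2 h2' a1 a2 hcj
    have e1 := orient_window hF t0 M σ τ t1 t2 h1.le h1' h2 h2' a1 a2 g hgg i hi
    have e2 := orient_window hF t0 M σ τ t1 t2 h1.le h1' h2 h2' a1 a2 g hgg j hj
    refine ⟨(hF.supp _).2 hi, ?_⟩
    rw [e1, e2, hsame g hgg]

end Pool.Agent.Helper21.PD
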