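import Pool.Agent.Helper21.ID.Prob
import Pool.Agent.Helper21.PD.Ori

/-!
# The law of the glued patterns
-/

namespace Pool.Agent.Helper21.PD

open Pool.Agent.H974R3 Pool.Agent.H988R4 Pool.Agent.H988R3 Pool.Agent.Helper21.ID
open MeasureTheory ProbabilityTheory Filter Topology

/-- If for good configurations the event `E` is determined, in all large windows, by the glued
patterns through `K`, then its probability is the average of `K` for the stationary measure. -/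
theorem pairing_law {n : ℕ} {ε : ℝ} {p : ℤ → unitInterval} (hp : Ell ε p) (t0 : ℤ)
    (K : Pat (2 * n + 1) → Pat (2 * n + 1) → ℝ) (hK0 : ∀ σ τ, 0 ≤ K σ τ) (hK1 : ∀ σ τ, K σ τ ≤ 1)
    (E : Set (Fin (2 * n + 1) × ℤ → Bool))
    (hE : ∀ ω, Good ω → ∀ᶠ M : ℕ in atTop, ∀ σ τ, K (rows (2 * n) (lowc ω t0 M) M σ)
      (rows (2 * n) (uppc ω t0 M) M τ) = E.indicator (fun _ => (1 : ℝ)) ω)
    (μ : Pat (2 * n + 1) → ℝ) (m0 : ∀ σ, 0 ≤ μ σ) (m1 : ∑ σ, μ σ = 1)
    (m2 : ∀ σ, ∑ c : Fin (2 * n + 1) → Bool, push (Tc (2 * n) c) μ σ = 2 ^ (2 * n + 1) * μ σ) :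
    (coins n p).real E = ∑ σ, ∑ τ, K σ τ * μ σ * μ τ := by
  classical
  let G : (M : ℕ) → (Fin M → Fin (2 * n + 1) → Bool) × (Fin M → Fin (2 * n + 1) → Bool) → ℝ :=
    fun M x => ∑ σ, ∑ τ, μ σ * μ τ *
      (K (rows (2 * n) (ext x.1) M σ) (rows (2 * n) (ext x.2) M τ))
  have hint : ∀ M : ℕ, ∫ ω, G M (win t0 M ω) ∂(coins n p) = ∑ σ, ∑ τ, K σ τ * μ σ * μ τ := by
    intro M
    rw [integral_win]
    set W1 : (Fin M → Fin (2 * n + 1) → Bool) → ℝ :=
      fun a => ∏ s : Fin M, rw1 (p (t0 - M + (s : ℕ)) : ℝ) (a s) with hW1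
    set W2 : (Fin M → Fin (2 * n + 1) → Bool) → ℝ :=
      fun b => ∏ s : Fin M, rw1 (1 - (p (t0 + M - 1 - (s : ℕ)) : ℝ)) (b s) with hW2
    have r1 : ∀ f : Pat (2 * n + 1) → ℝ, ∑ a, W1 a * ∑ σ, μ σ * f (rows (2 * n) (ext a) M σ)
        = ∑ σ, μ σ * f σ := fun f =>
      rows_stat_bias n μ m1 m2 M (fun s => (p (t0 - M + (s : ℕ)) : ℝ)) f
    have r2 : ∀ f : Pat (2 * n + 1) → ℝ, ∑ a, W2 a * ∑ σ, μ σ * f (rows (2 * n) (ext a) M σ)
        = ∑ σ, μ σ * f σ := fun f =>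
      rows_stat_bias n μ m1 m2 M (fun s => 1 - (p (t0 + M - 1 - (s : ℕ)) : ℝ)) f
    have e1 : ∑ a, ∑ b, W1 a * W2 b * G M (a, b) = ∑ b, W2 b * ∑ τ, μ τ *
        (∑ a, W1 a * ∑ σ, μ σ *
          (fun σ' => K σ' (rows (2 * n) (ext b) M τ)) (rows (2 * n) (ext a) M σ)) := by
      rw [Finset.sum_comm]
      refine Finset.sum_congr rfl fun b _ => ?_
      have e2 : ∀ a, W1 a * W2 b * G M (a, b) = ∑ τ, W2 b * (μ τ * (W1 a * ∑ σ, μ σ *
          (K (rows (2 * n) (ext a) M σ) (rows (2 * n) (ext b) M τ)))) := by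
        intro a
        show W1 a * W2 b * ∑ σ, ∑ τ, _ = _
        rw [Finset.sum_comm, Finset.mul_sum]
        refine Finset.sum_congr rfl fun τ _ => ?_
        rw [Finset.mul_sum, Finset.mul_sum, Finset.mul_sum, Finset.mul_sum]
        refine Finset.sum_congr rfl fun σ _ => ?_
        ring
      simp only [e2]
      rw [Finset.sum_comm, Finset.mul_sum]
      refine Finset.sum_congr rfl fun τ _ => ?_
      rw [← Finset.mul_sum, ← Finset.mul_sum]
    show ∑ a, ∑ b, W1 a * W2 b * G M (a, b) = _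
    rw [e1]
    have e4 : ∑ b, W2 b * ∑ τ, μ τ *
        (∑ a, W1 a * ∑ σ, μ σ *
          (fun σ' => K σ' (rows (2 * n) (ext b) M τ)) (rows (2 * n) (ext a) M σ)) =
        ∑ b, W2 b * ∑ τ, μ τ * ∑ σ, μ σ * K σ (rows (2 * n) (ext b) M τ) := by
      refine Finset.sum_congr rfl fun b _ => ?_
      congr 1
      refine Finset.sum_congr rfl fun τ _ => ?_
      exact congrArg (fun x => μ τ * x) (r1 (fun σ' => K σ' (rows (2 * n) (ext b) M τ)))
    rw [e4]
    have e3 : ∑ b, W2 b * ∑ τ, μ τ * ∑ σ, μ σ * K σ (rows (2 * n) (ext b) M τ)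
        = ∑ b, W2 b * ∑ τ, μ τ * (fun τ' => ∑ σ, μ σ * K σ τ')
          (rows (2 * n) (ext b) M τ) := rfl
    rw [e3]
    refine (r2 (fun τ' => ∑ σ, μ σ * K σ τ')).trans ?_
    simp only [Finset.mul_sum]
    rw [Finset.sum_comm]
    refine Finset.sum_congr rfl fun σ _ => ?_
    refine Finset.sum_congr rfl fun τ _ => ?_
    ring
  have hrow1 : ∀ ω (M : ℕ) σ, rows (2 * n) (ext (win t0 M ω).1) M σ
      = rows (2 * n) (lowc ω t0 M) M σ := by
    intro ω M σ
    apply rows_congr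
    intro t ht
    unfold H974R3.ext
    rw [dif_pos ht]
    rfl
  have hrow2 : ∀ ω (M : ℕ) σ, rows (2 * n) (ext (win t0 M ω).2) M σ
      = rows (2 * n) (uppc ω t0 M) M σ := by
    intro ω M σ
    apply rows_congr
    intro t ht
    unfold H974R3.ext
    rw [dif_pos ht]
    rfl
  have hG0 : ∀ M x, 0 ≤ G M x := fun M x => Finset.sum_nonneg fun σ _ =>
    Finset.sum_nonneg fun τ _ => mul_nonneg (mul_nonneg (m0 σ) (m0 τ)) (hK0 _ _)
  have hG1 : ∀ M x, G M x ≤ 1 := by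
    intro M x
    calc G M x ≤ ∑ σ, ∑ τ, μ σ * μ τ := by
          refine Finset.sum_le_sum fun σ _ => Finset.sum_le_sum fun τ _ => ?_
          exact mul_le_of_le_one_right (mul_nonneg (m0 σ) (m0 τ)) (hK1 _ _)
      _ = 1 := by rw [← Finset.sum_mul_sum, m1, one_mul]
  have hmeas : ∀ M : ℕ, Measurable fun ω => G M (win t0 M ω) := fun M =>
    (measurable_of_finite (G M)).comp (measurable_win t0 M)
  have hlim : ∀ᵐ ω ∂(coins n p), Tendsto (fun M => G M (win t0 M ω)) atTop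
      (𝓝 (E.indicator (fun _ => (1 : ℝ)) ω)) := by
    filter_upwards [ae_good (n := n) hp] with ω hω
    refine tendsto_const_nhds.congr' ?_
    filter_upwards [hE ω hω] with M hM
    show _ = ∑ σ, ∑ τ, μ σ * μ τ * (K (rows (2 * n) (ext (win t0 M ω).1) M σ)
      (rows (2 * n) (ext (win t0 M ω).2) M τ))
    have e : ∀ σ τ, K (rows (2 * n) (ext (win t0 M ω).1) M σ)
        (rows (2 * n) (ext (win t0 M ω).2) M τ) = E.indicator (fun _ => (1 : ℝ)) ω := by
      intro σ τ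
      rw [hrow1, hrow2, hM]
    simp only [e, ← Finset.sum_mul]
    rw [← Finset.sum_mul_sum, m1, one_mul, one_mul]
  have hae : AEMeasurable (E.indicator (fun _ => (1 : ℝ))) (coins n p) :=
    aemeasurable_of_tendsto_metrizable_ae atTop (fun M => (hmeas M).aemeasurable) hlim
  have hnull : NullMeasurableSet E (coins n p) := by
    have h1 : E = (E.indicator (fun _ => (1 : ℝ))) ⁻¹' {1} := by
      ext ω
      by_cases h : ω ∈ E
      · simp [h]
      · simp [h]
    rw [h1]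
    exact hae.nullMeasurableSet_preimage (measurableSet_singleton _)
  have h2 : Tendsto (fun M => ∫ ω, G M (win t0 M ω) ∂(coins n p)) atTop
      (𝓝 (∫ ω, E.indicator (fun _ => (1 : ℝ)) ω ∂(coins n p))) := by
    refine tendsto_integral_of_dominated_convergence (fun _ => 1)
      (fun M => (hmeas M).aestronglyMeasurable) (integrable_const 1) (fun M => ?_) hlim
    refine Eventually.of_forall fun ω => ?_
    rw [Real.norm_eq_abs, abs_of_nonneg (hG0 _ _)]
    exact hG1 _ _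
  simp only [hint] at h2
  have h3 := tendsto_nhds_unique h2 tendsto_const_nhds
  rw [integral_indicator₀ hnull] at h3
  rw [← h3]
  simp

end Pool.Agent.Helper21.PD
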