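import Pool.Agent.Helper21.PD.LawP
import Pool.Graph.R_seed8.H988R3.Homog4

/-!
# Exact values
-/

namespace Pool.Agent.Helper21.PD

open Equiv
open Pool.Agent.H974R3 Pool.Agent.H988R4 Pool.Agent.H988R3 Pool.Agent.Helper21.ID
open MeasureTheory ProbabilityTheory Filter Topology

theorem good_eventually {n : ℕ} {ω : Fin (2 * n + 1) × ℤ → Bool} (hg : Good ω) (t0 : ℤ) :
    ∃ t1 t2 : ℤ, AltRow ω t1 ∧ AltRow ω t2 ∧ t1 < t0 ∧ t0 ≤ t2 ∧
      ∀ᶠ M : ℕ in atTop, t0 - M < t1 ∧ t2 < t0 + M := by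
  obtain ⟨t1, h1, a1⟩ := (hg t0).1
  obtain ⟨t2, h2, a2⟩ := (hg t0).2
  refine ⟨t1, t2, a1, a2, h1, h2, ?_⟩
  filter_upwards [eventually_ge_atTop ((t0 - t1).toNat + (t2 - t0).toNat + 1)] with M hM
  omega

theorem orient_ae {n : ℕ} {ε : ℝ} {p : ℤ → unitInterval} (hp : Ell ε p) :
    ∀ᵐ ω ∂(coins n p), ∃! F, Orient ω F := by
  filter_upwards [ae_good (n := n) hp] with ω hω
  obtain ⟨F, hF⟩ := exists_orient hω
  exact ⟨F, hF, fun G hG => orient_unique hω hG hF⟩

/-! ### two strands in the same direction -/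

theorem value4_rot (n : ℕ) (μ : Pat (2 * n + 1) → ℝ) (hr : ∀ σ, μ (rot (2 * n) σ) = μ σ)
    (i j : Fin (2 * n + 1)) :
    (∑ σ, ∑ τ, (pr4 (finRotate (2 * n + 1) i) (finRotate (2 * n + 1) j) σ τ).re * μ σ * μ τ) =
      ∑ σ, ∑ τ, (pr4 i j σ τ).re * μ σ * μ τ := by
  set e : Pat (2 * n + 1) ≃ Pat (2 * n + 1) :=
    ⟨rot (2 * n), rotInv (2 * n), rotInv_rot (2 * n), rot_rotInv (2 * n)⟩ with he
  rw [← Equiv.sum_comp e]
  refine Finset.sum_congr rfl fun σ _ => ?_
  rw [← Equiv.sum_comp e]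
  refine Finset.sum_congr rfl fun τ _ => ?_
  have h1 : e σ = rot (2 * n) σ := rfl
  have h2 : e τ = rot (2 * n) τ := rfl
  rw [h1, h2, hr, hr, pr4_rot]

theorem value4_all (n : ℕ) (μ : Pat (2 * n + 1) → ℝ) (hr : ∀ σ, μ (rot (2 * n) σ) = μ σ) (k : ℕ) :
    (∑ σ, ∑ τ, (pr4 (ix (2 * n) k) (ix (2 * n) (k + 1)) σ τ).re * μ σ * μ τ) =
      ∑ σ, ∑ τ, (pr4 (ix (2 * n) 0) (ix (2 * n) 1) σ τ).re * μ σ * μ τ := by
  induction k with
  | zero => rfl
  | succ k ih =>
    rw [← ih, ← value4_rot n μ hr (ix (2 * n) k)]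
    have h1 : ∀ i, finRotate (2 * n + 1) (ix (2 * n) i) = ix (2 * n) (i + 1) := by
      intro i
      rw [CMP.finRotate_ix]
      apply CMP.ix_congr
      rw [CMP.ix_val, Nat.mod_add_mod]
    rw [h1, h1]

theorem same_value {n : ℕ} (hn : 1 ≤ n) {ε : ℝ} {p : ℤ → unitInterval} (hp : Ell ε p)
    (j : Fin (2 * n + 1)) (t : ℤ) :
    (coins n p).real {ω | ∃ F, Orient ω F ∧ F (Edg.v j t) ≠ 0 ∧
      F (Edg.v j t) = F (Edg.v (j + 1) t)} = p4val n := by
  classical
  obtain ⟨μ, m0, m1, m2, -, m4⟩ := markov_exists n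
  have h := pairing_law hp t (fun σ τ => (pr4 j (j + 1) σ τ).re)
    (fun σ τ => M_pr4_re_nonneg _ _ _ _ _) (fun σ τ => by unfold pr4; split_ifs <;> simp)
    {ω | ∃ F, Orient ω F ∧ F (Edg.v j t) ≠ 0 ∧ F (Edg.v j t) = F (Edg.v (j + 1) t)}
    (fun ω hg => by
      obtain ⟨t1, t2, a1, a2, h1, h2, h3⟩ := good_eventually hg t
      obtain ⟨F, hF⟩ := exists_orient hg
      filter_upwards [h3] with M hM
      intro σ τ
      have key := same_iff hg hF t M σ τ t1 t2 hM.1 h1 h2 hM.2 a1 a2 j (j + 1)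
      have hmem : ω ∈ {ω | ∃ F, Orient ω F ∧ F (Edg.v j t) ≠ 0 ∧
          F (Edg.v j t) = F (Edg.v (j + 1) t)} ↔ (F (Edg.v j t) ≠ 0 ∧
          F (Edg.v j t) = F (Edg.v (j + 1) t)) := by
        constructor
        · rintro ⟨G, hG, h4⟩
          rw [orient_unique hg hF hG]
          exact h4
        · exact fun h4 => ⟨F, hF, h4⟩
      by_cases hP : P4 j (j + 1) (rows (2 * n) (lowc ω t M) M σ) (rows (2 * n) (uppc ω t M) M τ)
      · rw [Set.indicator_of_mem (hmem.2 (key.2 hP))]
        unfold pr4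
        rw [if_pos hP]
        simp
      · rw [Set.indicator_of_notMem (fun h4 => hP (key.1 (hmem.1 h4)))]
        unfold pr4
        rw [if_neg hP]
        simp) μ m0 m1 m2
  rw [h]
  have h5 := value4_all n μ m4 j.val
  have e1 : ix (2 * n) j.val = j := CMP.ix_self _ _
  have e2 : ix (2 * n) (j.val + 1) = j + 1 := by rw [← ID.ix_succ, e1]
  rw [e1, e2] at h5
  show ∑ σ, ∑ τ, (pr4 j (j + 1) σ τ).re * μ σ * μ τ = _
  rw [h5]
  exact pairing4_value n hn μ m1 m2

/-! ### the direction of one strand -/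

/-- the strand `j` lies on the infinite line and is traversed upwards -/
def Up {L : ℕ} (j : Fin L) (σ τ : Pat L) : Prop :=
  Conn σ.1 τ.1 (some j) none ∧ ∀ h, Alt σ.1 τ.1 h → h (some j) ≠ h none

theorem up_rot {m : ℕ} (j : Fin (m + 1)) (σ τ : Pat (m + 1)) :
    Up (finRotate (m + 1) j) (rot m σ) (rot m τ) ↔ Up j σ τ := by
  unfold Up
  rw [rot_val, rot_val]
  have hr : ∀ j : Fin (m + 1), rotV m (some j) = some (finRotate (m + 1) j) := fun _ => rfl
  have hn : rotV m none = none := rfl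
  have hr' : ∀ j : Fin (m + 1), (rotV m)⁻¹ (some (finRotate (m + 1) j)) = some j := fun j => by
    rw [← hr, pinv_apply]
  have hn' : (rotV m)⁻¹ none = none := by
    conv_lhs => rw [← hn]
    rw [pinv_apply]
  constructor
  · rintro ⟨hc, hs⟩
    refine ⟨fun h h1 h2 => ?_, fun h hh => ?_⟩
    · have key := hc (fun v => h ((rotV m)⁻¹ v)) (fun v => ?_) (fun v => ?_)
      · simpa only [hr', hn'] using key
      · simp only [Perm.mul_apply, pinv_apply, h1]
      · simp only [Perm.mul_apply, pinv_apply, h2]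
    · have key := hs (fun v => h ((rotV m)⁻¹ v)) ⟨fun v => ?_, fun v => ?_⟩
      · simpa only [hr', hn'] using key
      · simp only [Perm.mul_apply, pinv_apply, hh.1]
      · simp only [Perm.mul_apply, pinv_apply, hh.2]
  · rintro ⟨hc, hs⟩
    refine ⟨fun h h1 h2 => ?_, fun h hh => ?_⟩
    · have key := hc (fun v => h (rotV m v)) (fun v => ?_) (fun v => ?_)
      · simpa only [hr, hn] using key
      · have := h1 (rotV m v)
        simpa only [Perm.mul_apply, pinv_apply] using this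
      · have := h2 (rotV m v)
        simpa only [Perm.mul_apply, pinv_apply] using this
    · have key := hs (fun v => h (rotV m v)) ⟨fun v => ?_, fun v => ?_⟩
      · simpa only [hr, hn] using key
      · have := hh.1 (rotV m v)
        simpa only [Perm.mul_apply, pinv_apply] using this
      · have := hh.2 (rotV m v)
        simpa only [Perm.mul_apply, pinv_apply] using this

open Classical in
/-- indicator of `Up` -/
noncomputable def pu {L : ℕ} (j : Fin L) (σ τ : Pat L) : ℝ := if Up j σ τ then 1 else 0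

/-- the upward flux is one -/
theorem sum_pu {L : ℕ} (σ τ : Pat L) : ∑ j : Fin L, (2 * pu j σ τ - (pr j σ τ).re) = 1 := by
  classical
  obtain ⟨g, hg⟩ := exists_alt σ.1 τ.1 σ.2.inv σ.2.nofix τ.2.inv τ.2.nofix
  obtain ⟨φ, f1, f2, f3, f4, f5⟩ := flux_exists σ τ g hg
  -- on the infinite line the alternating function is unique up to a sign
  have huniq : ∀ j : Fin L, Conn σ.1 τ.1 (some j) none → g (some j) ≠ g none → Up j σ τ := by
    intro j hc hne
    refine ⟨hc, fun h hh => ?_⟩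
    have key := hc (fun v => h v == g v) (fun v => ?_) (fun v => ?_)
    · revert key hne
      generalize g (some j) = x
      generalize g none = y
      generalize h (some j) = z
      generalize h none = w
      cases x <;> cases y <;> cases z <;> cases w <;> simp
    · simp only [hh.1, hg.1]
      cases h v <;> cases g v <;> rfl
    · simp only [hh.2, hg.2]
      cases h v <;> cases g v <;> rfl
  have hterm : ∀ j : Fin L, (2 * pu j σ τ - (pr j σ τ).re) =
      if Conn σ.1 τ.1 (some j) none then ((φ (some j) : ℤ) : ℝ) else 0 := by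
    intro j
    by_cases hc : Conn σ.1 τ.1 (some j) none
    · rw [if_pos hc, f5 _ hc]
      unfold pr
      rw [if_pos hc]
      by_cases hne : g (some j) = g none
      · rw [if_pos hne]
        have : ¬ Up j σ τ := fun h => h.2 g hg hne
        unfold pu
        rw [if_neg this]
        norm_num
      · rw [if_neg hne]
        unfold pu
        rw [if_pos (huniq j hc hne)]
        norm_num
    · rw [if_neg hc]
      unfold pr
      rw [if_neg hc]
      have : ¬ Up j σ τ := fun h => hc h.1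
      unfold pu
      rw [if_neg this]
      norm_num
  simp only [hterm]
  -- a flux supported on the infinite line
  set ψ : Vx L → ℤ := fun v => if Conn σ.1 τ.1 v none then φ v else 0 with hψ
  have hflux : Flux σ ψ := by
    intro v
    show (if Conn σ.1 τ.1 (σ.1 v) none then φ (σ.1 v) else 0) =
      -(if Conn σ.1 τ.1 v none then φ v else 0)
    by_cases hv : Conn σ.1 τ.1 v none
    · rw [if_pos hv, if_pos ((T3_conn_left σ τ v).2 hv), f1 v]
    · rw [if_neg hv, if_neg (fun h => hv ((T3_conn_left σ τ v).1 h)), neg_zero]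
  have h1 := sum_flux hflux
  have hn : ψ none = -1 := by
    have hcn : Conn σ.1 τ.1 none none := fun _ _ _ => rfl
    show (if Conn σ.1 τ.1 none none then φ none else 0) = -1
    rw [if_pos hcn, f3]
  rw [hn, neg_neg] at h1
  have h2 : ((∑ p : Fin L, ψ (some p) : ℤ) : ℝ) = 1 := by rw [h1]; norm_num
  rw [← h2]
  push_cast
  refine Finset.sum_congr rfl fun j _ => ?_
  show _ = (((if Conn σ.1 τ.1 (some j) none then φ (some j) else 0 : ℤ)) : ℝ)
  split_ifs <;> simp

theorem valueU_rot (n : ℕ) (μ : Pat (2 * n + 1) → ℝ) (hr : ∀ σ, μ (rot (2 * n) σ) = μ σ)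
    (j : Fin (2 * n + 1)) :
    (∑ σ, ∑ τ, pu (j + 1) σ τ * μ σ * μ τ) = ∑ σ, ∑ τ, pu j σ τ * μ σ * μ τ := by
  set e : Pat (2 * n + 1) ≃ Pat (2 * n + 1) :=
    ⟨rot (2 * n), rotInv (2 * n), rotInv_rot (2 * n), rot_rotInv (2 * n)⟩ with he
  rw [← Equiv.sum_comp e]
  refine Finset.sum_congr rfl fun σ _ => ?_
  rw [← Equiv.sum_comp e]
  refine Finset.sum_congr rfl fun τ _ => ?_
  have h1 : e σ = rot (2 * n) σ := rfl
  have h2 : e τ = rot (2 * n) τ := rfl
  have h3 : pu (j + 1) (rot (2 * n) σ) (rot (2 * n) τ) = pu j σ τ := by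
    have h4 := up_rot (m := 2 * n) j σ τ
    rw [finRotate_apply] at h4
    unfold pu
    by_cases h5 : Up j σ τ
    · rw [if_pos h5, if_pos (h4.2 h5)]
    · rw [if_neg h5, if_neg (fun h => h5 (h4.1 h))]
  rw [h1, h2, hr, hr, h3]

theorem valueU (n : ℕ) (μ : Pat (2 * n + 1) → ℝ) (m1 : ∑ σ, μ σ = 1)
    (m2 : ∀ σ, ∑ c : Fin (2 * n + 1) → Bool, push (Tc (2 * n) c) μ σ = 2 ^ (2 * n + 1) * μ σ)
    (hr : ∀ σ, μ (rot (2 * n) σ) = μ σ) (j : Fin (2 * n + 1)) :
    ∑ σ, ∑ τ, pu j σ τ * μ σ * μ τ = (pval n + 1 / (2 * n + 1)) / 2 := by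
  set U : Fin (2 * n + 1) → ℝ := fun j => ∑ σ, ∑ τ, pu j σ τ * μ σ * μ τ with hU
  have hrot : ∀ j, U (j + 1) = U j := fun j => valueU_rot n μ hr j
  have hall : ∀ k : ℕ, U (ix (2 * n) k) = U (ix (2 * n) 0) := by
    intro k
    induction k with
    | zero => rfl
    | succ k ih => rw [← ID.ix_succ, hrot, ih]
  have hall' : ∀ i, U i = U j := by
    intro i
    have h1 := hall i.val
    have h2 := hall j.val
    rw [CMP.ix_self] at h1 h2
    rw [h1, h2]
  have hsum : ∑ i, (2 * U i - pval n) = 1 := by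
    have hp : ∀ i, pval n = ∑ σ, ∑ τ, (pr i σ τ).re * μ σ * μ τ := fun i =>
      (pairing_value n μ m1 m2 i).symm
    have h1 : ∀ i, 2 * U i - pval n = ∑ σ, ∑ τ, (2 * pu i σ τ - (pr i σ τ).re) * μ σ * μ τ := by
      intro i
      rw [hp i, hU]
      simp only [Finset.mul_sum]
      rw [← Finset.sum_sub_distrib]
      refine Finset.sum_congr rfl fun σ _ => ?_
      rw [← Finset.sum_sub_distrib]
      refine Finset.sum_congr rfl fun τ _ => ?_
      ring
    rw [Finset.sum_congr rfl fun i _ => h1 i]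
    rw [Finset.sum_comm]
    have h2 : ∀ σ, ∑ i, ∑ τ, (2 * pu i σ τ - (pr i σ τ).re) * μ σ * μ τ = μ σ := by
      intro σ
      rw [Finset.sum_comm]
      have h3 : ∀ τ, ∑ i, (2 * pu i σ τ - (pr i σ τ).re) * μ σ * μ τ = μ σ * μ τ := by
        intro τ
        simp only [mul_assoc]
        rw [← Finset.sum_mul, sum_pu, one_mul]
      simp only [h3]
      rw [← Finset.mul_sum, m1, mul_one]
    simp only [h2]
    exact m1
  simp only [hall'] at hsum
  rw [Finset.sum_const, Finset.card_univ, Fintype.card_fin, nsmul_eq_mul] at hsum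
  push_cast at hsum
  have hpos : (0 : ℝ) < 2 * n + 1 := by positivity
  show U j = _
  field_simp
  linarith

theorem up_value {n : ℕ} {ε : ℝ} {p : ℤ → unitInterval} (hp : Ell ε p)
    (j : Fin (2 * n + 1)) (t : ℤ) :
    (coins n p).real {ω | ∃ F, Orient ω F ∧ F (Edg.v j t) = 1} =
      (pval n + 1 / (2 * n + 1)) / 2 := by
  classical
  obtain ⟨μ, m0, m1, m2, -, m4⟩ := markov_exists n
  have h := pairing_law hp t (fun σ τ => pu j σ τ)
    (fun σ τ => by unfold pu; split_ifs <;> simp) (fun σ τ => by unfold pu; split_ifs <;> simp)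
    {ω | ∃ F, Orient ω F ∧ F (Edg.v j t) = 1}
    (fun ω hg => by
      obtain ⟨t1, t2, a1, a2, h1, h2, h3⟩ := good_eventually hg t
      obtain ⟨F, hF⟩ := exists_orient hg
      filter_upwards [h3] with M hM
      intro σ τ
      have key := up_iff hg hF t M σ τ t1 t2 hM.1 h1 h2 hM.2 a1 a2 j
      have hmem : ω ∈ {ω | ∃ F, Orient ω F ∧ F (Edg.v j t) = 1} ↔ F (Edg.v j t) = 1 := by
        constructor
        · rintro ⟨G, hG, h4⟩
          rw [orient_unique hg hF hG]
          exact h4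
        · exact fun h4 => ⟨F, hF, h4⟩
      by_cases hP : Up j (rows (2 * n) (lowc ω t M) M σ) (rows (2 * n) (uppc ω t M) M τ)
      · rw [Set.indicator_of_mem (hmem.2 (key.2 hP))]
        unfold pu
        rw [if_pos hP]
      · rw [Set.indicator_of_notMem (fun h4 => hP (key.1 (hmem.1 h4)))]
        unfold pu
        rw [if_neg hP]) μ m0 m1 m2
  rw [h]
  exact valueU n μ m1 m2 m4 j

/-- the direction of the other edges: the strand `v j t` is traversed downwards -/
theorem down_value {n : ℕ} {ε : ℝ} {p : ℤ → unitInterval} (hp : Ell ε p)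
    (j : Fin (2 * n + 1)) (t : ℤ) :
    (coins n p).real {ω | ∃ F, Orient ω F ∧ F (Edg.v j t) = -1} =
      (pval n - 1 / (2 * n + 1)) / 2 := by
  classical
  obtain ⟨μ, m0, m1, m2, -, m4⟩ := markov_exists n
  have h := pairing_law hp t (fun σ τ => (pr j σ τ).re - pu j σ τ)
    (fun σ τ => by
      unfold pu pr
      by_cases h1 : Up j σ τ
      · rw [if_pos h1, if_pos h1.1]; simp
      · rw [if_neg h1]; split_ifs <;> simp)
    (fun σ τ => by unfold pu pr; split_ifs <;> norm_num)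
    {ω | ∃ F, Orient ω F ∧ F (Edg.v j t) = -1}
    (fun ω hg => by
      obtain ⟨t1, t2, a1, a2, h1, h2, h3⟩ := good_eventually hg t
      obtain ⟨F, hF⟩ := exists_orient hg
      filter_upwards [h3] with M hM
      intro σ τ
      have key := up_iff hg hF t M σ τ t1 t2 hM.1 h1 h2 hM.2 a1 a2 j
      have hc1 : Conn (rows (2 * n) (lowc ω t M) M σ).1 (rows (2 * n) (uppc ω t M) M τ).1
          (some j) none ↔ F (Edg.v j t) ≠ 0 := by
        rw [hF.supp]
        constructor
        · exact fun hc => infinite_of_conn hg t M σ τ j t1 t2 hM.1 h1 h2 hM.2 a1 a2 hc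
        · intro hi
          by_contra hc
          exact hi (finite_of_not_conn ω t M σ τ j t1 t2 hM.1.le h1 h2 hM.2 a1 a2 hc)
      have hmem : ω ∈ {ω | ∃ F, Orient ω F ∧ F (Edg.v j t) = -1} ↔ F (Edg.v j t) = -1 := by
        constructor
        · rintro ⟨G, hG, h4⟩
          rw [orient_unique hg hF hG]
          exact h4
        · exact fun h4 => ⟨F, hF, h4⟩
      unfold pu pr
      rcases hF.val (Edg.v j t) with h5 | h5 | h5
      · rw [Set.indicator_of_notMem (fun h4 => by rw [hmem.1 h4] at h5; norm_num at h5),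
          if_neg (fun h6 => hc1.1 h6 h5), if_neg (fun h6 => hc1.1 h6.1 h5)]
        simp
      · rw [Set.indicator_of_notMem (fun h4 => by rw [hmem.1 h4] at h5; norm_num at h5),
          if_pos (hc1.2 (by rw [h5]; norm_num)), if_pos (show Up j _ _ from key.1 h5)]
        simp
      · rw [Set.indicator_of_mem (hmem.2 h5),
          if_pos (hc1.2 (by rw [h5]; norm_num)),
          if_neg (fun h6 => by rw [key.2 h6] at h5; norm_num at h5)]
        simp) μ m0 m1 m2
  rw [h]
  have h1 := valueU n μ m1 m2 m4 j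
  have h2 := pairing_value n μ m1 m2 j
  have h3 : ∑ σ, ∑ τ, ((pr j σ τ).re - pu j σ τ) * μ σ * μ τ =
      (∑ σ, ∑ τ, (pr j σ τ).re * μ σ * μ τ) - ∑ σ, ∑ τ, pu j σ τ * μ σ * μ τ := by
    rw [← Finset.sum_sub_distrib]
    refine Finset.sum_congr rfl fun σ _ => ?_
    rw [← Finset.sum_sub_distrib]
    refine Finset.sum_congr rfl fun τ _ => ?_
    ring
  show ∑ σ, ∑ τ, ((pr j σ τ).re - pu j σ τ) * μ σ * μ τ = _
  rw [h3, h1, h2]
  ring

end Pool.Agent.Helper21.PD
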